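import Mathlib
import Pool.Agent.H744R2.Falc.Defs

set_option autoImplicit false

/-!
Falconer's conjecture after a partial dilation: statements of the steps.

`A ⊆ ℝ^m × ℝ^k` compact, dimension `> (m+k)/2`. For `lam > 0` consider the set of all
`|x'-y'|^2 + lam |x''-y''|^2`, `x, y ∈ A`. Claim: the set of `lam` for which it is a null set has
dimension at most `1 + (m+k)/2 - dim A < 1`.
-/

namespace Pool.Agent.TH597.FD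

open MeasureTheory Set Metric Complex
open scoped ENNReal Real

/-- Euclidean space -/
abbrev E (n : ℕ) := EuclideanSpace ℝ (Fin n)

/-- the amplitude `(4π(1-it))^{-n/2}` -/
noncomputable def amp (n : ℕ) (t : ℝ) : ℂ := (4 * (π : ℂ) * (1 - t * I)) ^ (-((n : ℂ) / 2))

/-- the integrand `(4π(1-it))^{-n/2} e^{-q/(1-it)} e^{-itr}` -/
noncomputable def wker (n : ℕ) (r q t : ℝ) : ℂ :=
  amp n t * cexp (-((q : ℂ) / (1 - t * I))) * cexp (-(((t * r : ℝ) : ℂ) * I))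

/-- the oscillatory integral over `[a,b]` -/
noncomputable def W (n : ℕ) (a b r q : ℝ) : ℂ := ∫ t in a..b, wker n r q t

/-- the decay of the oscillatory integral (van der Corput) -/
def OSC : Prop := ∀ (n : ℕ) (c₀ K : ℝ), 0 < c₀ → 1 ≤ K → ∃ C c : ℝ, 0 < C ∧ 0 < c ∧
  ∀ T : ℝ, 2 ≤ T → ∀ a b : ℝ, T ≤ a → a ≤ b → b ≤ K * T → ∀ q : ℝ, 0 ≤ q → ∀ r : ℝ, c₀ ≤ r →
    ‖W n a b r q‖ ≤ C * T ^ ((1 - (n : ℝ)) / 2) * Real.exp (-(c * q / T ^ 2))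

/-- the two-variable transform `N(t,u) = ∫ e^{-(1-it) f - (1-iu) g} dν` -/
noncomputable def N {Ω : Type*} [MeasurableSpace Ω] (ν : Measure Ω) (f g : Ω → ℝ)
    (p : ℝ × ℝ) : ℂ :=
  ∫ ω, cexp (-((1 - (p.1 : ℂ) * I) * (f ω : ℂ)) - (1 - (p.2 : ℂ) * I) * (g ω : ℂ)) ∂ν

/-- the local average of `F` over a square of side `2a` -/
noncomputable def avg (a : ℝ) (F : ℝ × ℝ → ℂ) (t u : ℝ) : ℂ :=
  ∫ τ in (-a)..a, ∫ υ in (-a)..a, F (t + τ, u + υ)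

/-- squared distances in the first factor -/
noncomputable def v1 {m k : ℕ} (p : (E m × E k) × (E m × E k)) : ℝ := ‖p.1.1 - p.2.1‖ ^ 2

/-- squared distances in the second factor -/
noncomputable def v2 {m k : ℕ} (p : (E m × E k) × (E m × E k)) : ℝ := ‖p.1.2 - p.2.2‖ ^ 2

/-- the main estimate -/
def CORE : Prop := ∀ (m k : ℕ) (μ₁ μ₂ : Measure (E m × E k)) [IsProbabilityMeasure μ₁]
  [IsProbabilityMeasure μ₂] (C s c₀ : ℝ), 0 < C → 0 ≤ s → 0 < c₀ →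
  (∀ (x : E m × E k) (r : ℝ), 0 < r → μ₁ (closedBall x r) ≤ ENNReal.ofReal (C * r ^ s)) →
  (∀ (x : E m × E k) (r : ℝ), 0 < r → μ₂ (closedBall x r) ≤ ENNReal.ofReal (C * r ^ s)) →
  (∀ᵐ p ∂(μ₁.prod μ₂), c₀ ≤ v1 p ∧ c₀ ≤ v2 p) →
  ∀ K : ℝ, 1 ≤ K → ∃ C' : ℝ, ∀ T : ℝ, 2 ≤ T →
    ∫⁻ p in Icc T (K * T) ×ˢ Icc T (K * T), ENNReal.ofReal (‖N (μ₁.prod μ₂) v1 v2 p‖ ^ 2) ≤
      ENNReal.ofReal (C' * T ^ (1 + ((m : ℝ) + k) / 2 - s))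

/-- projections of a planar density: the exceptional set -/
def PROJ : Prop := ∀ (F : ℝ × ℝ → ℂ) (M a θ : ℝ), Continuous F → (∀ p, ‖F p‖ ≤ M) → 0 < a →
  (∀ K : ℝ, 1 ≤ K → ∃ C : ℝ, ∀ T : ℝ, 2 ≤ T →
    ∫⁻ p in Icc T (K * T) ×ˢ Icc T (K * T), ENNReal.ofReal (‖F p‖ ^ 2) ≤
      ENNReal.ofReal (C * T ^ θ)) →
  dimH {lam : ℝ | 0 < lam ∧
    ∫⁻ t in Ioi (0 : ℝ), ENNReal.ofReal (‖avg a F t (lam * t)‖ ^ 2) = ⊤} ≤ ENNReal.ofReal θ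

/-- a square integrable transform gives positive measure -/
def POS : Prop := ∀ (Ω : Type) [MeasurableSpace Ω] (ν : Measure Ω) [IsProbabilityMeasure ν]
  (f g : Ω → ℝ), Measurable f → Measurable g → ∀ (c₀ R a lam : ℝ), 0 < c₀ → 0 < a →
  a * R ≤ π / 2 → 0 < lam →
  (∀ᵐ ω ∂ν, c₀ ≤ f ω ∧ f ω ≤ R ∧ c₀ ≤ g ω ∧ g ω ≤ R) →
  ∀ D : Set ℝ, IsCompact D → (∀ᵐ ω ∂ν, f ω + lam * g ω ∈ D) →
  ∫⁻ t in Ioi (0 : ℝ), ENNReal.ofReal (‖avg a (N ν f g) t (lam * t)‖ ^ 2) ≠ ⊤ →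
  0 < volume D

/-- separation or a single fibre -/
def SEP : Prop := ∀ (m k : ℕ) (μ : Measure (E m × E k)) [IsProbabilityMeasure μ],
  (∃ (c₀ : ℝ) (B₁ B₂ : Set (E m × E k)), 0 < c₀ ∧ IsClosed B₁ ∧ IsClosed B₂ ∧ μ B₁ ≠ 0 ∧
    μ B₂ ≠ 0 ∧ ∀ x ∈ B₁, ∀ y ∈ B₂, c₀ ≤ v1 (x, y) ∧ c₀ ≤ v2 (x, y)) ∨
  (∃ x₀ : E m, ∀ᵐ x ∂μ, x.1 = x₀) ∨ (∃ x₀ : E k, ∀ᵐ x ∂μ, x.2 = x₀)

/-- the values `|x'-y'|^2 + lam |x''-y''|^2` -/
def quadSet {m k : ℕ} (A : Set (E m × E k)) (lam : ℝ) : Set ℝ :=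
  {t | ∃ x ∈ A, ∃ y ∈ A, t = ‖x.1 - y.1‖ ^ 2 + lam * ‖x.2 - y.2‖ ^ 2}

/-- the theorem in product coordinates -/
def XMAIN : Prop := ∀ (m k : ℕ) (A : Set (E m × E k)) (s : ℝ), IsCompact A → 1 ≤ m → 1 ≤ k →
  ((m : ℝ) + k) / 2 < s → Pool.Agent.H744R2.Falc.Fro A s →
  dimH {lam : ℝ | 0 < lam ∧ volume (quadSet A lam) = 0} ≤
    ENNReal.ofReal (1 + ((m : ℝ) + k) / 2 - s)

/-- The distance set of a subset of Euclidean space. -/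
def distanceSet {d : ℕ} (A : Set (EuclideanSpace ℝ (Fin d))) : Set ℝ :=
  {r | ∃ x ∈ A, ∃ y ∈ A, r = dist x y}

/-- The linear map that multiplies by `lam` on the subspace `V` and is the identity on the
orthogonal complement of `V`. -/
noncomputable def stretch {d : ℕ} (V : Submodule ℝ (EuclideanSpace ℝ (Fin d))) (lam : ℝ)
    (x : EuclideanSpace ℝ (Fin d)) : EuclideanSpace ℝ (Fin d) :=
  x + (lam - 1) • V.starProjection x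

/-- the final theorem -/
def FINAL : Prop := ∀ (d : ℕ) (V : Submodule ℝ (EuclideanSpace ℝ (Fin d))), V ≠ ⊥ → V ≠ ⊤ →
  ∀ A : Set (EuclideanSpace ℝ (Fin d)), IsCompact A → (d : ℝ≥0∞) / 2 < dimH A →
  dimH {lam : ℝ | 0 < lam ∧ volume (distanceSet (stretch V lam '' A)) = 0} ≤
      1 + (d : ℝ≥0∞) / 2 - dimH A ∧
    ∀ᵐ lam : ℝ, 0 < lam → 0 < volume (distanceSet (stretch V lam '' A))

end Pool.Agent.TH597.FD
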