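import Mathlib
import Pool.Agent.TH597.FD.Stm

set_option autoImplicit false

namespace Pool.Agent.TH597.FD

open MeasureTheory Set Metric Complex
open scoped ENNReal Real InnerProductSpace

lemma one_sub_ne (t : ℝ) : (1 : ℂ) - t * I ≠ 0 := by
  intro h
  have := congrArg Complex.re h
  simp at this

lemma re_four_pi (t : ℝ) : 0 < (4 * (π : ℂ) * (1 - t * I)).re := by
  have : (4 * (π : ℂ) * (1 - t * I)).re = 4 * π := by simp
  rw [this]; positivity

lemma four_pi_ne (t : ℝ) : (4 * (π : ℂ) * (1 - t * I)) ≠ 0 := by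
  intro h
  have := re_four_pi t
  rw [h] at this
  simp at this

lemma re_inv (q t : ℝ) : ((q : ℂ) / (1 - t * I)).re = q / (1 + t ^ 2) := by
  have h1 : (q : ℂ) / (1 - t * I) = ((q / (1 + t ^ 2) : ℝ) : ℂ) * (1 + t * I) := by
    rw [div_eq_iff (one_sub_ne t)]
    have h2 : (1 + (t : ℂ) * I) * (1 - t * I) = ((1 + t ^ 2 : ℝ) : ℂ) := by
      push_cast
      have : I * I = -1 := Complex.I_mul_I
      linear_combination (-(t : ℂ) ^ 2) * this
    rw [mul_assoc, h2, ← Complex.ofReal_mul]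
    congr 1
    have : (1 + t ^ 2 : ℝ) ≠ 0 := by positivity
    field_simp
  rw [h1, Complex.re_ofReal_mul]
  simp

lemma norm_eker (q t : ℝ) : ‖cexp (-((q : ℂ) / (1 - t * I)))‖ = Real.exp (-(q / (1 + t ^ 2))) := by
  rw [Complex.norm_exp, Complex.neg_re, re_inv]

lemma norm_osc (x : ℝ) : ‖cexp (-((x : ℂ) * I))‖ = 1 := by
  rw [Complex.norm_exp]; simp

lemma amp_cont (n : ℕ) : Continuous (amp n) := by
  unfold amp
  refine continuous_iff_continuousAt.2 fun t => ?_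
  refine ContinuousAt.cpow (by fun_prop) (by fun_prop) ?_
  exact Or.inl (re_four_pi t)

lemma amp_le (n : ℕ) (t : ℝ) : ‖amp n t‖ ≤ 1 := by
  unfold amp
  have h : (-((n : ℂ) / 2)) = ((-(n / 2) : ℝ) : ℂ) := by push_cast; ring
  rw [h, Complex.norm_cpow_real]
  apply Real.rpow_le_one_of_one_le_of_nonpos
  · have : |(4 * (π : ℂ) * (1 - t * I)).re| ≤ ‖4 * (π : ℂ) * (1 - t * I)‖ := Complex.abs_re_le_norm _
    have h2 : (4 * (π : ℂ) * (1 - t * I)).re = 4 * π := by simp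
    rw [h2, abs_of_pos (by positivity)] at this
    have := Real.pi_gt_three
    linarith
  · have : (0 : ℝ) ≤ (n : ℝ) / 2 := by positivity
    linarith

lemma wker_cont (n : ℕ) : Continuous (fun p : (ℝ × ℝ) × ℝ => wker n p.1.1 p.1.2 p.2) := by
  unfold wker
  have h0 : ∀ p : (ℝ × ℝ) × ℝ, (1 : ℂ) - (p.2 : ℂ) * I ≠ 0 := fun p => one_sub_ne p.2
  have h1 := (amp_cont n).comp (continuous_snd : Continuous fun p : (ℝ × ℝ) × ℝ => p.2)
  refine Continuous.mul (Continuous.mul h1 ?_) (by fun_prop)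
  refine Complex.continuous_exp.comp (Continuous.neg ?_)
  exact Continuous.div (by fun_prop) (by fun_prop) h0

lemma wker_norm (n : ℕ) (r q t : ℝ) : ‖wker n r q t‖ ≤ Real.exp (-(q / (1 + t ^ 2))) := by
  unfold wker
  rw [norm_mul, norm_mul, norm_eker, norm_osc, mul_one]
  calc ‖amp n t‖ * Real.exp (-(q / (1 + t ^ 2))) ≤ 1 * Real.exp (-(q / (1 + t ^ 2))) := by
        gcongr
        exact amp_le n t
    _ = _ := one_mul _

/-- Gaussian representation -/
lemma gauss_rep (n : ℕ) (t : ℝ) (z : E n) :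
    cexp (-((1 - (t : ℂ) * I) * ((‖z‖ ^ 2 : ℝ) : ℂ))) =
      amp n t * ∫ ξ : E n, cexp (-(((‖ξ‖ ^ 2 / 4 : ℝ) : ℂ) / (1 - t * I))) *
        cexp (((⟪z, ξ⟫_ℝ : ℝ) : ℂ) * I) := by
  set b : ℂ := 1 / (4 * (1 - t * I)) with hb
  have hne := one_sub_ne t
  have hbre : 0 < b.re := by
    have h1 : b = ((1 / 4 : ℝ) : ℂ) / (1 - t * I) := by
      rw [hb]; push_cast; field_simp
    rw [h1, re_inv]
    positivity
  have h := GaussianFourier.integral_cexp_neg_mul_sq_norm_add (V := E n) hbre I z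
  have e1 : (fun v : E n => cexp (-b * ‖v‖ ^ 2 + I * ⟪z, v⟫_ℝ)) =
      fun ξ : E n => cexp (-(((‖ξ‖ ^ 2 / 4 : ℝ) : ℂ) / (1 - t * I))) *
        cexp (((⟪z, ξ⟫_ℝ : ℝ) : ℂ) * I) := by
    funext v
    rw [← Complex.exp_add]
    congr 1
    rw [hb]
    push_cast
    field_simp
  rw [e1] at h
  rw [h]
  have e2 : (π : ℂ) / b = 4 * (π : ℂ) * (1 - t * I) := by
    rw [hb]; field_simp
  have e3 : I ^ 2 * (‖z‖ : ℂ) ^ 2 / (4 * b) = -((1 - (t : ℂ) * I) * ((‖z‖ ^ 2 : ℝ) : ℂ)) := by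
    rw [hb, Complex.I_sq]
    push_cast
    field_simp
  rw [e2, e3, ← mul_assoc]
  have e4 : amp n t * (4 * (π : ℂ) * (1 - t * I)) ^ ((Module.finrank ℝ (E n) : ℂ) / 2) = 1 := by
    unfold amp
    rw [Complex.cpow_neg]
    simp only [finrank_euclideanSpace, Fintype.card_fin]
    apply inv_mul_cancel₀
    rw [Ne, Complex.cpow_eq_zero_iff]
    exact fun h => four_pi_ne t h.1
  rw [e4, one_mul]

/-- the kernel on `[a,b] × E n` is integrable -/
lemma ker_int (n : ℕ) (a b r : ℝ) (z : E n) :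
    Integrable (fun p : ℝ × E n => wker n r (‖p.2‖ ^ 2 / 4) p.1 *
      cexp (((⟪z, p.2⟫_ℝ : ℝ) : ℂ) * I)) ((volume.restrict (Icc a b)).prod volume) := by
  set M : ℝ := 1 + (|a| + |b|) ^ 2 with hM
  have hMpos : 0 < M := by positivity
  have hcont : Continuous (fun p : ℝ × E n => wker n r (‖p.2‖ ^ 2 / 4) p.1 *
      cexp (((⟪z, p.2⟫_ℝ : ℝ) : ℂ) * I)) := by
    refine Continuous.mul ?_ (by fun_prop)
    exact (wker_cont n).comp (f := fun p : ℝ × E n => ((r, ‖p.2‖ ^ 2 / 4), p.1)) (by fun_prop)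
  have hg : Integrable (fun ξ : E n => Real.exp (-(1 / (4 * M)) * ‖ξ‖ ^ 2)) volume := by
    have h := GaussianFourier.integrable_cexp_neg_mul_sq_norm_add (V := E n)
      (b := ((1 / (4 * M) : ℝ) : ℂ)) (by rw [Complex.ofReal_re]; positivity) 0 0
    have h2 := h.norm
    refine h2.congr (Filter.Eventually.of_forall fun ξ => ?_)
    simp only
    rw [Complex.norm_exp]
    congr 1
    simp [← Complex.ofReal_pow]
  have hb : Integrable (fun p : ℝ × E n => Real.exp (-(1 / (4 * M)) * ‖p.2‖ ^ 2))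
      ((volume.restrict (Icc a b)).prod volume) := by
    have := (integrable_const (μ := volume.restrict (Icc a b)) (1 : ℝ)).mul_prod hg
    simpa using this
  refine hb.mono' hcont.aestronglyMeasurable ?_
  have hae : ∀ᵐ p ∂((volume.restrict (Icc a b)).prod (volume : Measure (E n))), p.1 ∈ Icc a b :=
    Measure.quasiMeasurePreserving_fst.ae (ae_restrict_mem measurableSet_Icc)
  filter_upwards [hae] with p hp
  rw [norm_mul, Complex.norm_exp_ofReal_mul_I, mul_one]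
  refine (wker_norm n r _ p.1).trans ?_
  apply Real.exp_le_exp.2
  have h1 : 1 + p.1 ^ 2 ≤ M := by
    have : |p.1| ≤ |a| + |b| := by
      rw [abs_le]
      constructor
      · have := neg_abs_le a
        have := abs_nonneg b
        linarith [hp.1]
      · have := le_abs_self b
        have := abs_nonneg a
        linarith [hp.2]
    have h2 : p.1 ^ 2 ≤ (|a| + |b|) ^ 2 := by
      rw [← sq_abs p.1]
      exact pow_le_pow_left₀ (abs_nonneg _) this 2
    linarith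
  have h2 : ‖p.2‖ ^ 2 / 4 / M ≤ ‖p.2‖ ^ 2 / 4 / (1 + p.1 ^ 2) := by
    apply div_le_div_of_nonneg_left (by positivity) (by positivity) h1
  have h3 : ‖p.2‖ ^ 2 / 4 / M = 1 / (4 * M) * ‖p.2‖ ^ 2 := by
    field_simp
  linarith

/-- the representation of the block integral -/
lemma block_rep (n : ℕ) (a b r : ℝ) (hab : a ≤ b) (z : E n) :
    ∫ t in Icc a b, cexp (-((1 - (t : ℂ) * I) * ((‖z‖ ^ 2 : ℝ) : ℂ))) *
        cexp (-(((t * r : ℝ) : ℂ) * I)) =
      ∫ ξ : E n, W n a b r (‖ξ‖ ^ 2 / 4) * cexp (((⟪z, ξ⟫_ℝ : ℝ) : ℂ) * I) := by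
  have h1 : ∀ t : ℝ, cexp (-((1 - (t : ℂ) * I) * ((‖z‖ ^ 2 : ℝ) : ℂ))) *
        cexp (-(((t * r : ℝ) : ℂ) * I)) =
      ∫ ξ : E n, wker n r (‖ξ‖ ^ 2 / 4) t * cexp (((⟪z, ξ⟫_ℝ : ℝ) : ℂ) * I) := by
    intro t
    rw [gauss_rep, ← integral_const_mul, ← integral_mul_const]
    congr 1
    funext ξ
    unfold wker
    ring
  simp_rw [h1]
  rw [integral_integral_swap (ker_int n a b r z)]
  congr 1
  funext ξ
  rw [integral_mul_const]
  congr 1
  unfold W
  rw [intervalIntegral.integral_of_le hab, integral_Icc_eq_integral_Ioc]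

lemma W_cont (n : ℕ) (a b r : ℝ) : Continuous (fun q : ℝ => W n a b r q) := by
  unfold W
  apply intervalIntegral.continuous_parametric_intervalIntegral_of_continuous'
  exact (wker_cont n).comp (f := fun p : ℝ × ℝ => ((r, p.1), p.2)) (by fun_prop)

end Pool.Agent.TH597.FD
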