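import Mathlib
import Pool.Agent.TH597.FD.Rep
import Pool.Agent.H744R2.Falc.Gauss

set_option autoImplicit false

namespace Pool.Agent.TH597.FD

open MeasureTheory Set Metric Complex
open scoped ENNReal Real InnerProductSpace

variable {m k : ℕ}

/-- the phase `⟨x,ζ⟩` on the product -/
noncomputable def ip (x ζ : E m × E k) : ℝ := ⟪x.1, ζ.1⟫_ℝ + ⟪x.2, ζ.2⟫_ℝ

/-- the characteristic function on the product -/
noncomputable def ch (μ : Measure (E m × E k)) (ζ : E m × E k) : ℂ :=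
  ∫ x, cexp ((ip x ζ : ℂ) * I) ∂μ

lemma ip_cont : Continuous (fun p : (E m × E k) × (E m × E k) => ip p.1 p.2) := by
  unfold ip; fun_prop

lemma ip_sub (x y ζ : E m × E k) : ip (x - y) ζ = ip x ζ - ip y ζ := by
  unfold ip
  simp only [Prod.fst_sub, Prod.snd_sub, inner_sub_left]
  ring

lemma ch_norm_le (μ : Measure (E m × E k)) [IsProbabilityMeasure μ] (ζ : E m × E k) :
    ‖ch μ ζ‖ ≤ 1 := by
  have := norm_integral_le_of_norm_le_const (μ := μ) (C := 1)
    (f := fun x : E m × E k => cexp ((ip x ζ : ℂ) * I))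
    (ae_of_all _ fun ω => by rw [Complex.norm_exp_ofReal_mul_I])
  simpa [ch] using this

lemma ch_meas (μ : Measure (E m × E k)) [IsProbabilityMeasure μ] : Measurable (ch μ) := by
  refine StronglyMeasurable.measurable ?_
  refine StronglyMeasurable.integral_prod_right
    (f := fun (ζ : E m × E k) (x : E m × E k) => cexp ((ip x ζ : ℂ) * I)) ?_
  refine Continuous.stronglyMeasurable ?_
  unfold Function.uncurry
  have h := (ip_cont (m := m) (k := k)).comp (continuous_swap (X := E m × E k) (Y := E m × E k))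
  exact Complex.continuous_exp.comp ((Complex.continuous_ofReal.comp h).mul continuous_const)

/-- product of two characteristic functions -/
lemma ch_mul_conj (μ₁ μ₂ : Measure (E m × E k)) [IsProbabilityMeasure μ₁]
    [IsProbabilityMeasure μ₂] (ζ : E m × E k) :
    ∫ p, cexp ((ip (p.1 - p.2) ζ : ℂ) * I) ∂(μ₁.prod μ₂) =
      ch μ₁ ζ * (starRingEnd ℂ) (ch μ₂ ζ) := by
  have h3 : (starRingEnd ℂ) (ch μ₂ ζ) = ∫ y, cexp (-((ip y ζ : ℂ) * I)) ∂μ₂ := by
    unfold ch
    rw [← integral_conj]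
    congr 1
    funext ω
    rw [← Complex.exp_conj]
    congr 1
    simp [Complex.conj_I]
  rw [h3]
  unfold ch
  rw [← integral_prod_mul]
  congr 1
  funext p
  rw [← Complex.exp_add, ip_sub]
  congr 1
  push_cast
  ring

/-- the Gaussian weight -/
noncomputable def gw (b : ℝ) (ζ : E m × E k) : ℝ :=
  Real.exp (-(b * ‖ζ.1‖ ^ 2)) * Real.exp (-(b * ‖ζ.2‖ ^ 2))

lemma gw_pos (b : ℝ) (ζ : E m × E k) : 0 < gw b ζ := by unfold gw; positivity

lemma gw_cont (b : ℝ) : Continuous (gw b : E m × E k → ℝ) := by unfold gw; fun_prop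

lemma gauss_int_one (n : ℕ) {b : ℝ} (hb : 0 < b) :
    Integrable (fun ξ : E n => Real.exp (-(b * ‖ξ‖ ^ 2))) volume := by
  have h := GaussianFourier.integrable_cexp_neg_mul_sq_norm_add (V := E n)
    (b := ((b : ℝ) : ℂ)) (by rw [Complex.ofReal_re]; positivity) 0 0
  refine h.norm.congr (Filter.Eventually.of_forall fun ξ => ?_)
  simp only
  rw [Complex.norm_exp]
  congr 1
  simp [← Complex.ofReal_pow]

lemma gw_int {b : ℝ} (hb : 0 < b) : Integrable (gw b : E m × E k → ℝ) volume := by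
  unfold gw
  rw [Measure.volume_eq_prod]
  exact (gauss_int_one m hb).mul_prod (gauss_int_one k hb)

/-- Gaussian Fourier transform, one block -/
lemma gauss_block (n : ℕ) {b : ℝ} (hb : 0 < b) (z : E n) :
    ∫ ξ : E n, ((Real.exp (-(b * ‖ξ‖ ^ 2)) : ℝ) : ℂ) * cexp (((⟪z, ξ⟫_ℝ : ℝ) : ℂ) * I) =
      (((π / b) ^ ((n : ℝ) / 2) * Real.exp (-(‖z‖ ^ 2 / (4 * b))) : ℝ) : ℂ) := by
  have h := GaussianFourier.integral_cexp_neg_mul_sq_norm_add (V := E n)
    (b := ((b : ℝ) : ℂ)) (by rw [Complex.ofReal_re]; positivity) I z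
  have e1 : (fun v : E n => cexp (-(b : ℂ) * ‖v‖ ^ 2 + I * ⟪z, v⟫_ℝ)) =
      fun ξ : E n => ((Real.exp (-(b * ‖ξ‖ ^ 2)) : ℝ) : ℂ) *
        cexp (((⟪z, ξ⟫_ℝ : ℝ) : ℂ) * I) := by
    funext v
    rw [Complex.ofReal_exp, ← Complex.exp_add]
    congr 1
    push_cast
    ring
  rw [e1] at h
  rw [h]
  simp only [finrank_euclideanSpace, Fintype.card_fin]
  rw [Complex.ofReal_mul, Complex.ofReal_cpow (by positivity), Complex.ofReal_exp, Complex.I_sq]
  push_cast
  congr 2
  ring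

/-- the Gaussian energy identity -/
lemma energy_id (μ : Measure (E m × E k)) [IsProbabilityMeasure μ] {b : ℝ} (hb : 0 < b) :
    ∫ ζ : E m × E k, gw b ζ * ‖ch μ ζ‖ ^ 2 =
      (π / b) ^ ((m : ℝ) / 2) * (π / b) ^ ((k : ℝ) / 2) *
        ∫ p, Real.exp (-((v1 p + v2 p) / (4 * b))) ∂(μ.prod μ) := by
  have hF : Integrable (fun q : (E m × E k) × ((E m × E k) × (E m × E k)) =>
      ((gw b q.1 : ℝ) : ℂ) * cexp ((ip (q.2.1 - q.2.2) q.1 : ℂ) * I))
      ((volume : Measure (E m × E k)).prod (μ.prod μ)) := by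
    have h1 : Integrable (fun q : (E m × E k) × ((E m × E k) × (E m × E k)) =>
        ((gw b q.1 : ℝ) : ℂ)) ((volume : Measure (E m × E k)).prod (μ.prod μ)) := by
      have := (gw_int (m := m) (k := k) hb).ofReal (𝕜 := ℂ)
      have h5 := this.mul_prod (integrable_const (μ := μ.prod μ) (1 : ℂ))
      refine h5.congr (Filter.Eventually.of_forall fun q => by simp)
    have h2 : Continuous (fun q : (E m × E k) × ((E m × E k) × (E m × E k)) =>
        ip (q.2.1 - q.2.2) q.1) := by unfold ip; fun_prop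
    refine h1.mul_bdd (c := 1) ?_ ?_
    · exact (Complex.continuous_exp.comp ((Complex.continuous_ofReal.comp h2).mul
        continuous_const)).aestronglyMeasurable
    · filter_upwards with q
      rw [Complex.norm_exp_ofReal_mul_I]
  have h4 : ((∫ ζ : E m × E k, gw b ζ * ‖ch μ ζ‖ ^ 2 : ℝ) : ℂ) =
      (((π / b) ^ ((m : ℝ) / 2) * (π / b) ^ ((k : ℝ) / 2) *
        ∫ p, Real.exp (-((v1 p + v2 p) / (4 * b))) ∂(μ.prod μ) : ℝ) : ℂ) := by
    rw [← integral_complex_ofReal]
    have e1 : ∀ ζ : E m × E k, ((gw b ζ * ‖ch μ ζ‖ ^ 2 : ℝ) : ℂ) =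
        ∫ p, ((gw b ζ : ℝ) : ℂ) * cexp ((ip (p.1 - p.2) ζ : ℂ) * I) ∂(μ.prod μ) := by
      intro ζ
      rw [integral_const_mul, ch_mul_conj, Complex.mul_conj, Complex.normSq_eq_norm_sq,
        Complex.ofReal_mul]
    simp_rw [e1]
    rw [integral_integral_swap hF]
    have e2 : ∀ p : (E m × E k) × (E m × E k),
        ∫ ζ : E m × E k, ((gw b ζ : ℝ) : ℂ) * cexp ((ip (p.1 - p.2) ζ : ℂ) * I) =
          (((π / b) ^ ((m : ℝ) / 2) * (π / b) ^ ((k : ℝ) / 2) *
            Real.exp (-((v1 p + v2 p) / (4 * b))) : ℝ) : ℂ) := by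
      intro p
      rw [Measure.volume_eq_prod]
      have e3 : (fun ζ : E m × E k => ((gw b ζ : ℝ) : ℂ) * cexp ((ip (p.1 - p.2) ζ : ℂ) * I)) =
          fun ζ : E m × E k => (((Real.exp (-(b * ‖ζ.1‖ ^ 2)) : ℝ) : ℂ) *
              cexp (((⟪p.1.1 - p.2.1, ζ.1⟫_ℝ : ℝ) : ℂ) * I)) *
            (((Real.exp (-(b * ‖ζ.2‖ ^ 2)) : ℝ) : ℂ) *
              cexp (((⟪p.1.2 - p.2.2, ζ.2⟫_ℝ : ℝ) : ℂ) * I)) := by
        funext ζ
        unfold gw ip
        rw [Complex.ofReal_mul, Complex.ofReal_add, add_mul, Complex.exp_add]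
        simp only [Prod.fst_sub, Prod.snd_sub]
        ring
      rw [e3, integral_prod_mul (f := fun ξ : E m => ((Real.exp (-(b * ‖ξ‖ ^ 2)) : ℝ) : ℂ) *
          cexp (((⟪p.1.1 - p.2.1, ξ⟫_ℝ : ℝ) : ℂ) * I))
        (g := fun ξ : E k => ((Real.exp (-(b * ‖ξ‖ ^ 2)) : ℝ) : ℂ) *
          cexp (((⟪p.1.2 - p.2.2, ξ⟫_ℝ : ℝ) : ℂ) * I)),
        gauss_block m hb, gauss_block k hb, ← Complex.ofReal_mul]
      congr 1
      unfold v1 v2
      rw [add_div, neg_add, Real.exp_add]
      ring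
    simp_rw [e2]
    rw [integral_complex_ofReal, integral_const_mul]
  exact Complex.ofReal_injective h4

/-- the energy bound for a Frostman measure -/
lemma energy_bd (μ : Measure (E m × E k)) [IsProbabilityMeasure μ] (C s : ℝ) (hC : 0 < C)
    (hs : 0 ≤ s)
    (hμ : ∀ (x : E m × E k) (r : ℝ), 0 < r → μ (closedBall x r) ≤ ENNReal.ofReal (C * r ^ s)) :
    ∃ C' : ℝ, 0 < C' ∧ ∀ lam : ℝ, 0 < lam →
      ∫ ζ : E m × E k, gw (1 / (4 * lam ^ 2)) ζ * ‖ch μ ζ‖ ^ 2 ≤
        C' * lam ^ (((m : ℝ) + k) - s) := by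
  obtain ⟨C₁, hC₁, h⟩ := Pool.Agent.H744R2.Falc.gauss_frostman μ C s hC hs hμ
  refine ⟨(4 * π) ^ (((m : ℝ) + k) / 2) * C₁, by positivity, fun lam hlam => ?_⟩
  rw [energy_id μ (b := 1 / (4 * lam ^ 2)) (by positivity)]
  have h1 : ∫ p, Real.exp (-((v1 p + v2 p) / (4 * (1 / (4 * lam ^ 2))))) ∂(μ.prod μ) ≤
      C₁ * lam ^ (-s) := by
    have hint : Integrable (fun p : (E m × E k) × (E m × E k) =>
        Real.exp (-((v1 p + v2 p) / (4 * (1 / (4 * lam ^ 2)))))) (μ.prod μ) := by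
      refine Integrable.of_bound ?_ 1 (Filter.Eventually.of_forall fun p => ?_)
      · refine Continuous.aestronglyMeasurable ?_
        unfold v1 v2
        fun_prop
      · rw [Real.norm_eq_abs, abs_of_pos (Real.exp_pos _)]
        apply Real.exp_le_one_iff.2
        have : 0 ≤ (v1 p + v2 p) / (4 * (1 / (4 * lam ^ 2))) := by unfold v1 v2; positivity
        linarith
    rw [integral_prod _ hint]
    calc ∫ x, ∫ y, Real.exp (-((v1 (x, y) + v2 (x, y)) / (4 * (1 / (4 * lam ^ 2))))) ∂μ ∂μ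
        ≤ ∫ x, C₁ * lam ^ (-s) ∂μ := by
          refine integral_mono hint.integral_prod_left (integrable_const _) fun x => ?_
          refine le_trans ?_ (h lam x hlam)
          refine integral_mono_of_nonneg (Filter.Eventually.of_forall fun y => (Real.exp_pos _).le) ?_
            (Filter.Eventually.of_forall fun y => ?_)
          · refine Integrable.of_bound ?_ 1 (Filter.Eventually.of_forall fun p => ?_)
            · refine Continuous.aestronglyMeasurable ?_
              fun_prop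
            · rw [Real.norm_eq_abs, abs_of_pos (Real.exp_pos _)]
              apply Real.exp_le_one_iff.2
              have : 0 ≤ lam ^ 2 * dist p x ^ 2 := by positivity
              linarith
          · simp only
            apply Real.exp_le_exp.2
            have h3 : dist y x ^ 2 ≤ v1 (x, y) + v2 (x, y) := by
              rw [Prod.dist_eq]
              unfold v1 v2
              simp only
              rw [dist_comm y.1, dist_comm y.2, dist_eq_norm, dist_eq_norm]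
              rcases max_cases ‖x.1 - y.1‖ ‖x.2 - y.2‖ with hh | hh <;> rw [hh.1] <;> nlinarith [sq_nonneg ‖x.1 - y.1‖, sq_nonneg ‖x.2 - y.2‖]
            have h4 : (v1 (x, y) + v2 (x, y)) / (4 * (1 / (4 * lam ^ 2))) =
                lam ^ 2 * (v1 (x, y) + v2 (x, y)) := by
              field_simp
            rw [h4]
            have : lam ^ 2 * dist y x ^ 2 ≤ lam ^ 2 * (v1 (x, y) + v2 (x, y)) := by gcongr
            linarith
      _ = C₁ * lam ^ (-s) := by simp
  have h2 : (π / (1 / (4 * lam ^ 2))) ^ ((m : ℝ) / 2) * (π / (1 / (4 * lam ^ 2))) ^ ((k : ℝ) / 2) =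
      (4 * π) ^ (((m : ℝ) + k) / 2) * lam ^ ((m : ℝ) + k) := by
    have e : π / (1 / (4 * lam ^ 2)) = (4 * π) * lam ^ 2 := by field_simp
    rw [e, ← Real.rpow_add (by positivity), Real.mul_rpow (by positivity) (by positivity),
      ← Real.rpow_natCast lam 2, ← Real.rpow_mul hlam.le]
    congr 1
    · congr 1; ring
    · congr 1; push_cast; ring
  rw [h2]
  calc (4 * π) ^ (((m : ℝ) + k) / 2) * lam ^ ((m : ℝ) + k) *
        ∫ p, Real.exp (-((v1 p + v2 p) / (4 * (1 / (4 * lam ^ 2))))) ∂(μ.prod μ)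
      ≤ (4 * π) ^ (((m : ℝ) + k) / 2) * lam ^ ((m : ℝ) + k) * (C₁ * lam ^ (-s)) := by gcongr
    _ = (4 * π) ^ (((m : ℝ) + k) / 2) * C₁ * (lam ^ ((m : ℝ) + k) * lam ^ (-s)) := by ring
    _ = _ := by rw [← Real.rpow_add hlam]; rfl

end Pool.Agent.TH597.FD
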