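import Mathlib
import Pool.Agent.TH597.FD.Gen

set_option autoImplicit false

namespace Pool.Agent.TH597.FD

open MeasureTheory Set Metric Complex
open scoped ENNReal Real InnerProductSpace

variable {m k : ℕ}

/-- the integrand of `N` -/
noncomputable def ek (p : ℝ × ℝ) (x y : ℝ) : ℂ :=
  cexp (-((1 - (p.1 : ℂ) * I) * (x : ℂ)) - (1 - (p.2 : ℂ) * I) * (y : ℂ))

lemma ek_cont : Continuous (fun q : (ℝ × ℝ) × (ℝ × ℝ) => ek q.1 q.2.1 q.2.2) := by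
  unfold ek; fun_prop

lemma ek_norm (p : ℝ × ℝ) (x y : ℝ) : ‖ek p x y‖ = Real.exp (-x - y) := by
  unfold ek
  rw [Complex.norm_exp]
  congr 1
  simp

lemma v1_cont : Continuous (v1 : (E m × E k) × (E m × E k) → ℝ) := by unfold v1; fun_prop

lemma v2_cont : Continuous (v2 : (E m × E k) × (E m × E k) → ℝ) := by unfold v2; fun_prop

lemma v1_nonneg (p : (E m × E k) × (E m × E k)) : 0 ≤ v1 p := by unfold v1; positivity

lemma v2_nonneg (p : (E m × E k) × (E m × E k)) : 0 ≤ v2 p := by unfold v2; positivity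

lemma ek_le (p : ℝ × ℝ) (ω : (E m × E k) × (E m × E k)) : ‖ek p (v1 ω) (v2 ω)‖ ≤ 1 := by
  rw [ek_norm]
  apply Real.exp_le_one_iff.2
  have := v1_nonneg ω
  have := v2_nonneg ω
  linarith

/-- the continuous function of `(p, ω)` -/
lemma ekv_cont : Continuous (fun q : (ℝ × ℝ) × ((E m × E k) × (E m × E k)) =>
    ek q.1 (v1 q.2) (v2 q.2)) := by
  unfold ek v1 v2
  fun_prop

lemma N_norm_le (ν : Measure ((E m × E k) × (E m × E k))) [IsProbabilityMeasure ν] (p : ℝ × ℝ) :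
    ‖N ν v1 v2 p‖ ≤ 1 := by
  have := norm_integral_le_of_norm_le_const (μ := ν) (C := 1)
    (f := fun ω => ek p (v1 ω) (v2 ω)) (ae_of_all _ fun ω => ek_le p ω)
  simpa [N, ek] using this

lemma N_cont (ν : Measure ((E m × E k) × (E m × E k))) [IsProbabilityMeasure ν] :
    Continuous (N ν v1 v2) := by
  have h : Continuous (fun p : ℝ × ℝ => ∫ ω, ek p (v1 ω) (v2 ω) ∂ν) := by
    refine continuous_of_dominated (bound := fun _ => 1) ?_ ?_ (integrable_const _) ?_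
    · intro p
      have : Continuous fun ω : (E m × E k) × (E m × E k) => ek p (v1 ω) (v2 ω) := by
        unfold ek v1 v2
        fun_prop
      exact this.aestronglyMeasurable
    · intro p
      exact Filter.Eventually.of_forall fun ω => ek_le p ω
    · refine Filter.Eventually.of_forall fun ω => ?_
      unfold ek
      fun_prop
  exact h

/-- the rectangle measure -/
noncomputable def rect (a b : ℝ) : Measure (ℝ × ℝ) :=
  (volume.restrict (Icc a b)).prod (volume.restrict (Icc a b))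

instance (a b : ℝ) : IsFiniteMeasure (rect a b) := by
  unfold rect; infer_instance

lemma rect_eq (a b : ℝ) : volume.restrict (Icc a b ×ˢ Icc a b) = rect a b := by
  unfold rect
  rw [Measure.prod_restrict, Measure.volume_eq_prod]

/-- the rectangle integral for fixed `r`, `ρ` -/
lemma inner_eq (μ₁ μ₂ : Measure (E m × E k)) [IsProbabilityMeasure μ₁] [IsProbabilityMeasure μ₂]
    (a b : ℝ) (hab : a ≤ b) (r ρ : ℝ) {D B : ℝ} (hB : 0 < B)
    (hD : ∀ ζ : E m × E k, ‖W m a b r (‖ζ.1‖ ^ 2 / 4)‖ * ‖W k a b ρ (‖ζ.2‖ ^ 2 / 4)‖ ≤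
      D * gw B ζ) :
    ‖∫ p, N (μ₁.prod μ₂) v1 v2 p * (cexp (-(((p.1 * r : ℝ) : ℂ) * I)) *
        cexp (-(((p.2 * ρ : ℝ) : ℂ) * I))) ∂(rect a b)‖ ≤
      D / 2 * ((∫ ζ : E m × E k, gw B ζ * ‖ch μ₁ ζ‖ ^ 2) +
        ∫ ζ : E m × E k, gw B ζ * ‖ch μ₂ ζ‖ ^ 2) := by
  have hosc : ∀ p : ℝ × ℝ, ‖cexp (-(((p.1 * r : ℝ) : ℂ) * I)) *
        cexp (-(((p.2 * ρ : ℝ) : ℂ) * I))‖ = 1 := by
    intro p
    rw [norm_mul, norm_osc, norm_osc, mul_one]
  -- first swap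
  have hI1 : Integrable (fun q : (ℝ × ℝ) × ((E m × E k) × (E m × E k)) =>
      ek q.1 (v1 q.2) (v2 q.2) * (cexp (-(((q.1.1 * r : ℝ) : ℂ) * I)) *
        cexp (-(((q.1.2 * ρ : ℝ) : ℂ) * I)))) ((rect a b).prod (μ₁.prod μ₂)) := by
    refine Integrable.of_bound ?_ 1 (Filter.Eventually.of_forall fun q => ?_)
    · exact (ekv_cont.mul (by fun_prop)).aestronglyMeasurable
    · rw [norm_mul, hosc, mul_one]
      exact ek_le _ _
  have e1 : ∫ p, N (μ₁.prod μ₂) v1 v2 p * (cexp (-(((p.1 * r : ℝ) : ℂ) * I)) *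
        cexp (-(((p.2 * ρ : ℝ) : ℂ) * I))) ∂(rect a b) =
      ∫ ω, ∫ p, ek p (v1 ω) (v2 ω) * (cexp (-(((p.1 * r : ℝ) : ℂ) * I)) *
        cexp (-(((p.2 * ρ : ℝ) : ℂ) * I))) ∂(rect a b) ∂(μ₁.prod μ₂) := by
    rw [← integral_integral_swap hI1]
    congr 1
    funext p
    rw [integral_mul_const]
    rfl
  -- second step: the product structure
  have e2 : ∀ ω : (E m × E k) × (E m × E k),
      ∫ p, ek p (v1 ω) (v2 ω) * (cexp (-(((p.1 * r : ℝ) : ℂ) * I)) *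
        cexp (-(((p.2 * ρ : ℝ) : ℂ) * I))) ∂(rect a b) =
      ∫ ζ : E m × E k, (W m a b r (‖ζ.1‖ ^ 2 / 4) * W k a b ρ (‖ζ.2‖ ^ 2 / 4)) *
        cexp ((ip (ω.1 - ω.2) ζ : ℂ) * I) := by
    intro ω
    have f1 : (fun p : ℝ × ℝ => ek p (v1 ω) (v2 ω) * (cexp (-(((p.1 * r : ℝ) : ℂ) * I)) *
        cexp (-(((p.2 * ρ : ℝ) : ℂ) * I)))) = fun p : ℝ × ℝ =>
        (cexp (-((1 - (p.1 : ℂ) * I) * ((‖ω.1.1 - ω.2.1‖ ^ 2 : ℝ) : ℂ))) *
          cexp (-(((p.1 * r : ℝ) : ℂ) * I))) *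
        (cexp (-((1 - (p.2 : ℂ) * I) * ((‖ω.1.2 - ω.2.2‖ ^ 2 : ℝ) : ℂ))) *
          cexp (-(((p.2 * ρ : ℝ) : ℂ) * I))) := by
      funext p
      unfold ek v1 v2
      rw [sub_eq_add_neg, Complex.exp_add]
      ring
    rw [f1]
    unfold rect
    rw [integral_prod_mul (f := fun t : ℝ =>
          cexp (-((1 - (t : ℂ) * I) * ((‖ω.1.1 - ω.2.1‖ ^ 2 : ℝ) : ℂ))) *
            cexp (-(((t * r : ℝ) : ℂ) * I)))
        (g := fun t : ℝ => cexp (-((1 - (t : ℂ) * I) * ((‖ω.1.2 - ω.2.2‖ ^ 2 : ℝ) : ℂ))) *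
            cexp (-(((t * ρ : ℝ) : ℂ) * I))),
      block_rep m a b r hab, block_rep k a b ρ hab, Measure.volume_eq_prod, ← integral_prod_mul]
    congr 1
    funext ζ
    unfold ip
    rw [Complex.ofReal_add, add_mul, Complex.exp_add]
    simp only [Prod.fst_sub, Prod.snd_sub]
    ring
  -- second swap
  have hWc : Continuous (fun ζ : E m × E k =>
      W m a b r (‖ζ.1‖ ^ 2 / 4) * W k a b ρ (‖ζ.2‖ ^ 2 / 4)) := by
    refine Continuous.mul ?_ ?_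
    · exact (W_cont m a b r).comp (f := fun ζ : E m × E k => ‖ζ.1‖ ^ 2 / 4) (by fun_prop)
    · exact (W_cont k a b ρ).comp (f := fun ζ : E m × E k => ‖ζ.2‖ ^ 2 / 4) (by fun_prop)
  have hWI : Integrable (fun ζ : E m × E k =>
      W m a b r (‖ζ.1‖ ^ 2 / 4) * W k a b ρ (‖ζ.2‖ ^ 2 / 4)) volume := by
    refine ((gw_int (m := m) (k := k) hB).const_mul D).mono' hWc.aestronglyMeasurable
      (Filter.Eventually.of_forall fun ζ => ?_)
    rw [norm_mul]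
    exact hD ζ
  have hI2 : Integrable (fun q : ((E m × E k) × (E m × E k)) × (E m × E k) =>
      (W m a b r (‖q.2.1‖ ^ 2 / 4) * W k a b ρ (‖q.2.2‖ ^ 2 / 4)) *
        cexp ((ip (q.1.1 - q.1.2) q.2 : ℂ) * I)) ((μ₁.prod μ₂).prod volume) := by
    have h1 := (integrable_const (μ := μ₁.prod μ₂) (1 : ℂ)).mul_prod hWI
    have h2 : Continuous (fun q : ((E m × E k) × (E m × E k)) × (E m × E k) =>
        ip (q.1.1 - q.1.2) q.2) := by unfold ip; fun_prop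
    refine (h1.mul_bdd (c := 1) (g := fun q => cexp ((ip (q.1.1 - q.1.2) q.2 : ℂ) * I)) ?_ ?_).congr
      (Filter.Eventually.of_forall fun q => by simp)
    · exact (Complex.continuous_exp.comp ((Complex.continuous_ofReal.comp h2).mul
        continuous_const)).aestronglyMeasurable
    · filter_upwards with q
      rw [Complex.norm_exp_ofReal_mul_I]
  rw [e1]
  simp_rw [e2]
  rw [integral_integral_swap hI2]
  have e3 : ∀ ζ : E m × E k, ∫ ω, (W m a b r (‖ζ.1‖ ^ 2 / 4) * W k a b ρ (‖ζ.2‖ ^ 2 / 4)) *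
        cexp ((ip (ω.1 - ω.2) ζ : ℂ) * I) ∂(μ₁.prod μ₂) =
      (W m a b r (‖ζ.1‖ ^ 2 / 4) * W k a b ρ (‖ζ.2‖ ^ 2 / 4)) *
        (ch μ₁ ζ * (starRingEnd ℂ) (ch μ₂ ζ)) := by
    intro ζ
    rw [integral_const_mul, ch_mul_conj]
  simp_rw [e3]
  have hg1 : Integrable (fun ζ : E m × E k => gw B ζ * ‖ch μ₁ ζ‖ ^ 2) volume := by
    refine (gw_int (m := m) (k := k) hB).mul_bdd (c := 1)
      (((ch_meas μ₁).norm.pow_const 2).aestronglyMeasurable)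
      (Filter.Eventually.of_forall fun ζ => ?_)
    rw [Real.norm_eq_abs, abs_of_nonneg (by positivity)]
    exact pow_le_one₀ (norm_nonneg _) (ch_norm_le μ₁ ζ)
  have hg2 : Integrable (fun ζ : E m × E k => gw B ζ * ‖ch μ₂ ζ‖ ^ 2) volume := by
    refine (gw_int (m := m) (k := k) hB).mul_bdd (c := 1)
      (((ch_meas μ₂).norm.pow_const 2).aestronglyMeasurable)
      (Filter.Eventually.of_forall fun ζ => ?_)
    rw [Real.norm_eq_abs, abs_of_nonneg (by positivity)]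
    exact pow_le_one₀ (norm_nonneg _) (ch_norm_le μ₂ ζ)
  calc ‖∫ ζ : E m × E k, (W m a b r (‖ζ.1‖ ^ 2 / 4) * W k a b ρ (‖ζ.2‖ ^ 2 / 4)) *
        (ch μ₁ ζ * (starRingEnd ℂ) (ch μ₂ ζ))‖
      ≤ ∫ ζ : E m × E k, D / 2 * (gw B ζ * ‖ch μ₁ ζ‖ ^ 2 + gw B ζ * ‖ch μ₂ ζ‖ ^ 2) := by
        refine norm_integral_le_of_norm_le ((hg1.add hg2).const_mul (D / 2))
          (Filter.Eventually.of_forall fun ζ => ?_)
        rw [norm_mul, norm_mul, norm_mul, RCLike.norm_conj]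
        have h1 := hD ζ
        have h2 : ‖ch μ₁ ζ‖ * ‖ch μ₂ ζ‖ ≤ (‖ch μ₁ ζ‖ ^ 2 + ‖ch μ₂ ζ‖ ^ 2) / 2 := by
          nlinarith [sq_nonneg (‖ch μ₁ ζ‖ - ‖ch μ₂ ζ‖)]
        calc ‖W m a b r (‖ζ.1‖ ^ 2 / 4)‖ * ‖W k a b ρ (‖ζ.2‖ ^ 2 / 4)‖ * (‖ch μ₁ ζ‖ * ‖ch μ₂ ζ‖)
            ≤ (D * gw B ζ) * ((‖ch μ₁ ζ‖ ^ 2 + ‖ch μ₂ ζ‖ ^ 2) / 2) := by
              refine mul_le_mul h1 h2 (by positivity) ?_
              exact (by positivity : (0:ℝ) ≤ ‖W m a b r (‖ζ.1‖ ^ 2 / 4)‖ *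
                ‖W k a b ρ (‖ζ.2‖ ^ 2 / 4)‖).trans h1
          _ = D / 2 * (gw B ζ * ‖ch μ₁ ζ‖ ^ 2 + gw B ζ * ‖ch μ₂ ζ‖ ^ 2) := by ring
    _ = _ := by
        rw [integral_const_mul, integral_add hg1 hg2]

/-- the `L²` norm of `N` over the rectangle -/
lemma sq_le (ν : Measure ((E m × E k) × (E m × E k))) [IsProbabilityMeasure ν]
    (a b c₀ B : ℝ) (hsep : ∀ᵐ p ∂ν, c₀ ≤ v1 p ∧ c₀ ≤ v2 p)
    (hB : ∀ r ρ : ℝ, c₀ ≤ r → c₀ ≤ ρ →
      ‖∫ p, N ν v1 v2 p * (cexp (-(((p.1 * r : ℝ) : ℂ) * I)) *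
        cexp (-(((p.2 * ρ : ℝ) : ℂ) * I))) ∂(rect a b)‖ ≤ B) :
    ∫ p, ‖N ν v1 v2 p‖ ^ 2 ∂(rect a b) ≤ B := by
  have hconj : ∀ (p : ℝ × ℝ) (x y : ℝ), (starRingEnd ℂ) (ek p x y) =
      ((Real.exp (-x - y) : ℝ) : ℂ) * (cexp (-(((p.1 * x : ℝ) : ℂ) * I)) *
        cexp (-(((p.2 * y : ℝ) : ℂ) * I))) := by
    intro p x y
    unfold ek
    rw [← Complex.exp_conj, Complex.ofReal_exp, ← Complex.exp_add, ← Complex.exp_add]
    congr 1
    simp only [map_sub, map_neg, map_mul, map_one, Complex.conj_ofReal, Complex.conj_I]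
    push_cast
    ring
  have hI : Integrable (fun q : (ℝ × ℝ) × ((E m × E k) × (E m × E k)) =>
      N ν v1 v2 q.1 * (starRingEnd ℂ) (ek q.1 (v1 q.2) (v2 q.2))) ((rect a b).prod ν) := by
    refine Integrable.of_bound ?_ 1 (Filter.Eventually.of_forall fun q => ?_)
    · refine Continuous.aestronglyMeasurable ?_
      exact ((N_cont ν).comp continuous_fst).mul (Complex.continuous_conj.comp ekv_cont)
    · rw [norm_mul, RCLike.norm_conj]
      exact mul_le_one₀ (N_norm_le ν _) (norm_nonneg _) (ek_le _ _)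
  have h1 : ((∫ p, ‖N ν v1 v2 p‖ ^ 2 ∂(rect a b) : ℝ) : ℂ) =
      ∫ ω, ∫ p, N ν v1 v2 p * (starRingEnd ℂ) (ek p (v1 ω) (v2 ω)) ∂(rect a b) ∂ν := by
    rw [← integral_integral_swap hI, ← integral_complex_ofReal]
    congr 1
    funext p
    rw [integral_const_mul, integral_conj]
    have : ∫ ω, ek p (v1 ω) (v2 ω) ∂ν = N ν v1 v2 p := rfl
    rw [this, Complex.mul_conj, Complex.normSq_eq_norm_sq]
  have h2 : ‖((∫ p, ‖N ν v1 v2 p‖ ^ 2 ∂(rect a b) : ℝ) : ℂ)‖ ≤ B := by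
    rw [h1]
    have h3 := norm_integral_le_of_norm_le_const (μ := ν) (C := B)
      (f := fun ω => ∫ p, N ν v1 v2 p * (starRingEnd ℂ) (ek p (v1 ω) (v2 ω)) ∂(rect a b)) ?_
    · simpa using h3
    · filter_upwards [hsep] with ω hω
      have h4 : ∫ p, N ν v1 v2 p * (starRingEnd ℂ) (ek p (v1 ω) (v2 ω)) ∂(rect a b) =
          ((Real.exp (-v1 ω - v2 ω) : ℝ) : ℂ) *
            ∫ p, N ν v1 v2 p * (cexp (-(((p.1 * v1 ω : ℝ) : ℂ) * I)) *
              cexp (-(((p.2 * v2 ω : ℝ) : ℂ) * I))) ∂(rect a b) := by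
        rw [← integral_const_mul]
        congr 1
        funext p
        rw [hconj]
        ring
      rw [h4, norm_mul, Complex.norm_real, Real.norm_eq_abs, abs_of_pos (Real.exp_pos _)]
      have h5 : Real.exp (-v1 ω - v2 ω) ≤ 1 := by
        apply Real.exp_le_one_iff.2
        have := v1_nonneg ω
        have := v2_nonneg ω
        linarith
      have h6 := hB _ _ hω.1 hω.2
      calc _ ≤ 1 * ‖∫ p, N ν v1 v2 p * (cexp (-(((p.1 * v1 ω : ℝ) : ℂ) * I)) *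
              cexp (-(((p.2 * v2 ω : ℝ) : ℂ) * I))) ∂(rect a b)‖ := by gcongr
        _ ≤ B := by rw [one_mul]; exact h6
  rw [Complex.norm_real, Real.norm_eq_abs] at h2
  exact (le_abs_self _).trans h2

/-- the main estimate from the one-dimensional oscillatory integral -/
theorem core (h : OSC) : CORE := by
  intro m k μ₁ μ₂ _ _ C s c₀ hC hs hc₀ h1 h2 hsep K hK
  obtain ⟨Cm, cm, hCm, hcm, hWm⟩ := h m c₀ K hc₀ hK
  obtain ⟨Ck, ck, hCk, hck, hWk⟩ := h k c₀ K hc₀ hK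
  obtain ⟨A₁, hA₁, hE₁⟩ := energy_bd μ₁ C s hC hs h1
  obtain ⟨A₂, hA₂, hE₂⟩ := energy_bd μ₂ C s hC hs h2
  set c : ℝ := min cm ck with hc
  have hcpos : 0 < c := lt_min hcm hck
  refine ⟨Cm * Ck / 2 * ((A₁ + A₂) * (1 / Real.sqrt c) ^ (((m : ℝ) + k) - s)), fun T hT => ?_⟩
  have hT0 : 0 < T := by linarith
  have hTK : T ≤ K * T := by nlinarith
  have hsc : 0 < Real.sqrt c := Real.sqrt_pos.2 hcpos
  set lam : ℝ := T / Real.sqrt c with hlam
  have hlam0 : 0 < lam := by positivity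
  have hl : 1 / (4 * lam ^ 2) = c / (4 * T ^ 2) := by
    rw [hlam, div_pow, Real.sq_sqrt hcpos.le]
    field_simp
  set D : ℝ := Cm * Ck * (T ^ ((1 - (m : ℝ)) / 2) * T ^ ((1 - (k : ℝ)) / 2)) with hD
  have hDpos : 0 < D := by positivity
  have hbd : ∀ r ρ : ℝ, c₀ ≤ r → c₀ ≤ ρ → ∀ ζ : E m × E k,
      ‖W m T (K * T) r (‖ζ.1‖ ^ 2 / 4)‖ * ‖W k T (K * T) ρ (‖ζ.2‖ ^ 2 / 4)‖ ≤
        D * gw (1 / (4 * lam ^ 2)) ζ := by
    intro r ρ hr hρ ζ
    have a1 := hWm T hT T (K * T) le_rfl hTK le_rfl (‖ζ.1‖ ^ 2 / 4) (by positivity) r hr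
    have a2 := hWk T hT T (K * T) le_rfl hTK le_rfl (‖ζ.2‖ ^ 2 / 4) (by positivity) ρ hρ
    have b1 : Real.exp (-(cm * (‖ζ.1‖ ^ 2 / 4) / T ^ 2)) ≤
        Real.exp (-(1 / (4 * lam ^ 2) * ‖ζ.1‖ ^ 2)) := by
      apply Real.exp_le_exp.2
      rw [hl]
      have : c / (4 * T ^ 2) * ‖ζ.1‖ ^ 2 ≤ cm * (‖ζ.1‖ ^ 2 / 4) / T ^ 2 := by
        have e : cm * (‖ζ.1‖ ^ 2 / 4) / T ^ 2 = cm / (4 * T ^ 2) * ‖ζ.1‖ ^ 2 := by
          field_simp
        rw [e]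
        gcongr
        exact min_le_left _ _
      linarith
    have b2 : Real.exp (-(ck * (‖ζ.2‖ ^ 2 / 4) / T ^ 2)) ≤
        Real.exp (-(1 / (4 * lam ^ 2) * ‖ζ.2‖ ^ 2)) := by
      apply Real.exp_le_exp.2
      rw [hl]
      have : c / (4 * T ^ 2) * ‖ζ.2‖ ^ 2 ≤ ck * (‖ζ.2‖ ^ 2 / 4) / T ^ 2 := by
        have e : ck * (‖ζ.2‖ ^ 2 / 4) / T ^ 2 = ck / (4 * T ^ 2) * ‖ζ.2‖ ^ 2 := by
          field_simp
        rw [e]
        gcongr
        exact min_le_right _ _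
      linarith
    calc ‖W m T (K * T) r (‖ζ.1‖ ^ 2 / 4)‖ * ‖W k T (K * T) ρ (‖ζ.2‖ ^ 2 / 4)‖
        ≤ (Cm * T ^ ((1 - (m : ℝ)) / 2) * Real.exp (-(1 / (4 * lam ^ 2) * ‖ζ.1‖ ^ 2))) *
          (Ck * T ^ ((1 - (k : ℝ)) / 2) * Real.exp (-(1 / (4 * lam ^ 2) * ‖ζ.2‖ ^ 2))) := by
          refine mul_le_mul (a1.trans ?_) (a2.trans ?_) (norm_nonneg _) (by positivity)
          · gcongr
          · gcongr
      _ = D * gw (1 / (4 * lam ^ 2)) ζ := by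
          rw [hD]; unfold gw; ring
  have hmain := sq_le (μ₁.prod μ₂) T (K * T) c₀
    (D / 2 * (A₁ * lam ^ (((m : ℝ) + k) - s) + A₂ * lam ^ (((m : ℝ) + k) - s))) hsep (by
      intro r ρ hr hρ
      refine (inner_eq μ₁ μ₂ T (K * T) hTK r ρ (D := D) (B := 1 / (4 * lam ^ 2)) (by positivity)
        (hbd r ρ hr hρ)).trans ?_
      have := hE₁ lam hlam0
      have := hE₂ lam hlam0
      gcongr)
  rw [rect_eq, ← ofReal_integral_eq_lintegral_ofReal]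
  · apply ENNReal.ofReal_le_ofReal
    refine hmain.trans (le_of_eq ?_)
    have e1 : lam ^ (((m : ℝ) + k) - s) = (1 / Real.sqrt c) ^ (((m : ℝ) + k) - s) *
        T ^ (((m : ℝ) + k) - s) := by
      rw [← Real.mul_rpow (by positivity) hT0.le]
      congr 1
      rw [hlam]
      ring
    have e2 : T ^ (1 + ((m : ℝ) + k) / 2 - s) =
        T ^ ((1 - (m : ℝ)) / 2) * T ^ ((1 - (k : ℝ)) / 2) * T ^ (((m : ℝ) + k) - s) := by
      rw [← Real.rpow_add hT0, ← Real.rpow_add hT0]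
      congr 1
      ring
    rw [e1, e2, hD]
    ring
  · refine Integrable.of_bound ?_ 1 (Filter.Eventually.of_forall fun p => ?_)
    · exact ((N_cont (μ₁.prod μ₂)).norm.pow 2).aestronglyMeasurable
    · rw [Real.norm_eq_abs, abs_of_nonneg (by positivity)]
      exact pow_le_one₀ (norm_nonneg _) (N_norm_le _ _)
  · exact Filter.Eventually.of_forall fun p => by positivity

end Pool.Agent.TH597.FD
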