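import Pool.Agent.TH597.FD.Core
import Pool.Agent.TH126.FD_PROJ
import Pool.Agent.TH606.FD_OSC
import Pool.Agent.TH626.FD_FINAL
import Pool.Agent.TH889.FD_SEP
import Pool.Agent.TH921.FD_POS
import Pool.Agent.TH938.FD_XMAIN

set_option autoImplicit false

namespace Pool.Agent.TH597.FD

theorem xmain_all : XMAIN :=
  Pool.Agent.TH938.FD_XMAIN.xmain (core Pool.Agent.TH606.FD_OSC.osc) Pool.Agent.TH126.FD_PROJ.proj
    Pool.Agent.TH921.FD_POS.pos Pool.Agent.TH889.FD_SEP.sep

theorem final_all : FINAL := Pool.Agent.TH626.FD_FINAL.final xmain_all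

end Pool.Agent.TH597.FD
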